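import Pool.Agent.Helper20.EP.Spec2

/-!
# EP, part ROOTS: holomorphic root functions away from the critical values
-/

set_option autoImplicit false

open Polynomial Filter Topology

namespace Pool.Agent.Helper89.EP

open Pool.Agent.Helper20.EP

lemma eval_le (P : ℂ[X]) (n : ℕ) (K B : ℝ) (hn : P.natDegree ≤ n) (hK : ∀ j, ‖P.coeff j‖ ≤ K)
    (hB : 1 ≤ B) (z : ℂ) (hz : ‖z‖ ≤ B) : ‖P.eval z‖ ≤ (n + 1) * K * B ^ n := by
  rw [eval_eq_sum_range' (Nat.lt_succ_of_le hn)]
  calc ‖∑ i ∈ Finset.range (n + 1), P.coeff i * z ^ i‖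
      ≤ ∑ i ∈ Finset.range (n + 1), K * B ^ n := by
        refine norm_sum_le_of_le _ fun i hi => ?_
        rw [norm_mul, norm_pow]
        have hi' : i ≤ n := Nat.lt_succ_iff.1 (Finset.mem_range.1 hi)
        have h1 : ‖z‖ ^ i ≤ B ^ n :=
          (pow_le_pow_left₀ (norm_nonneg _) hz i).trans (pow_le_pow_right₀ hB hi')
        exact mul_le_mul (hK i) h1 (by positivity) ((norm_nonneg _).trans (hK i))
    _ = (n + 1) * K * B ^ n := by
        simp only [Finset.sum_const, Finset.card_range, nsmul_eq_mul]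
        push_cast
        ring

lemma deriv_coeff (P : ℂ[X]) (n : ℕ) (K : ℝ) (hn : P.natDegree ≤ n) (hK : ∀ j, ‖P.coeff j‖ ≤ K)
    (j : ℕ) : ‖P.derivative.coeff j‖ ≤ n * K := by
  have hK0 : 0 ≤ K := (norm_nonneg _).trans (hK 0)
  rw [coeff_derivative, norm_mul]
  by_cases h : j + 1 ≤ n
  · have h1 : ‖((j : ℂ) + 1)‖ ≤ n := by
      have : ((j : ℂ) + 1) = ((j + 1 : ℕ) : ℂ) := by push_cast; ring
      rw [this, Complex.norm_natCast]
      exact_mod_cast h
    calc ‖P.coeff (j + 1)‖ * ‖((j : ℂ) + 1)‖ ≤ K * n :=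
          mul_le_mul (hK _) h1 (norm_nonneg _) hK0
      _ = n * K := mul_comm _ _
  · have : P.coeff (j + 1) = 0 := coeff_eq_zero_of_natDegree_lt (by omega)
    rw [this]
    simp only [norm_zero, zero_mul]
    positivity

lemma prod_lb (a : ℂ) (δ : ℝ) (hδ : 0 ≤ δ) (s : Multiset ℂ) (h : ∀ y ∈ s, δ ≤ ‖a - y‖) :
    δ ^ (Multiset.card s) ≤ ‖(s.map (a - ·)).prod‖ := by
  induction s using Multiset.induction_on with
  | empty => simp
  | cons y s ih =>
    rw [Multiset.map_cons, Multiset.prod_cons, norm_mul, Multiset.card_cons, pow_succ, mul_comm]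
    exact mul_le_mul (h y (Multiset.mem_cons_self y s))
      (ih fun z hz => h z (Multiset.mem_cons_of_mem hz)) (by positivity) (norm_nonneg _)

lemma exists_root_near (P : ℂ[X]) (a : ℂ) (δ : ℝ) (hδ : 0 ≤ δ)
    (h : ‖P.eval a‖ < ‖P.leadingCoeff‖ * δ ^ P.natDegree) :
    ∃ y, P.eval y = 0 ∧ ‖a - y‖ < δ := by
  by_contra hcon
  push Not at hcon
  have hP : P ≠ 0 := by
    rintro rfl
    simp at h
  have hs := IsAlgClosed.splits P
  have h1 := prod_lb a δ hδ P.roots (fun y hy => hcon y ((mem_roots hP).1 hy))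
  have h2 : Multiset.card P.roots = P.natDegree := (splits_iff_card_roots.1 hs)
  rw [h2] at h1
  rw [hs.eval_eq_prod_roots a, norm_mul] at h
  exact absurd (mul_le_mul_of_nonneg_left h1 (norm_nonneg P.leadingCoeff)) (not_le.2 h)

lemma lip (P : ℂ[X]) (n : ℕ) (K B : ℝ) (hn : P.natDegree ≤ n) (hK : ∀ j, ‖P.coeff j‖ ≤ K)
    (hB : 1 ≤ B) (x y : ℂ) (hx : ‖x‖ ≤ B) (hy : ‖y‖ ≤ B) :
    ‖P.eval y - P.eval x‖ ≤ (n + 1) * (n * K) * B ^ n * ‖y - x‖ := by
  refine Convex.norm_image_sub_le_of_norm_deriv_le (𝕜 := ℂ) (f := fun z => P.eval z)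
    (s := Metric.closedBall 0 B) (fun z _ => P.differentiableAt) (fun z hz => ?_)
    (convex_closedBall _ _) (by simpa using hx) (by simpa using hy)
  rw [Polynomial.deriv]
  exact eval_le _ n _ B ((natDegree_derivative_le P).trans (by omega))
    (deriv_coeff P n K hn hK) hB z (by simpa using hz)

theorem core (d : ℕ) (C0 η : ℝ) (hd : 1 ≤ d) (hC : 1 ≤ C0) (hη : 0 < η) :
    ∃ ρ B : ℝ, 0 < ρ ∧ 1 ≤ B ∧ ∀ (G : ℂ[X]) (c : ℂ), G.natDegree = d →
      (∀ j, ‖G.coeff j‖ ≤ C0) → 1 ≤ C0 * ‖G.coeff d‖ → ‖c‖ ≤ C0 →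
      (∀ z, G.derivative.eval z = 0 → η ≤ ‖G.eval z - c‖) →
      ∃ y : Fin d → ℂ → ℂ, (∀ i, DifferentiableOn ℂ (y i) (Metric.ball c ρ)) ∧
        (∀ i, ∀ v ∈ Metric.ball c ρ, ‖y i v‖ ≤ B) ∧
        (∀ i, ∀ v ∈ Metric.ball c ρ, G.eval (y i v) = v) ∧
        ∀ v ∈ Metric.ball c ρ, Function.Injective fun i => y i v := by
  have hd' : (1 : ℝ) ≤ d := by exact_mod_cast hd
  have hC0 : 0 < C0 := by linarith
  obtain ⟨B, hBdef⟩ : ∃ B : ℝ, B = (d + 1) * C0 ^ 2 + 1 := ⟨_, rfl⟩
  have hB1 : 1 ≤ B := by rw [hBdef]; nlinarith [sq_nonneg C0]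
  have hB0 : 0 < B := by linarith
  have hBd : 1 ≤ B ^ d := one_le_pow₀ hB1
  obtain ⟨L1, hL1def⟩ : ∃ L : ℝ, L = (d + 1) * (d * C0) * B ^ d := ⟨_, rfl⟩
  obtain ⟨L2, hL2def⟩ : ∃ L : ℝ, L = (d + 1) * (d * (d * C0)) * B ^ d := ⟨_, rfl⟩
  have hdC : 1 ≤ d * C0 := by nlinarith
  have hddC : 1 ≤ d * (d * C0) := by nlinarith
  have hL1 : 1 ≤ L1 := by
    rw [hL1def]
    have : 1 ≤ ((d : ℝ) + 1) * (d * C0) := by nlinarith
    nlinarith
  have hL2 : 1 ≤ L2 := by
    rw [hL2def]
    have : 1 ≤ ((d : ℝ) + 1) * (d * (d * C0)) := by nlinarith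
    nlinarith
  obtain ⟨t, htdef⟩ : ∃ t : ℝ, t = min 1 (η / L1) := ⟨_, rfl⟩
  have ht0 : 0 < t := by rw [htdef]; exact lt_min one_pos (by positivity)
  have ht1 : t ≤ 1 := by rw [htdef]; exact min_le_left _ _
  have htη : L1 * t ≤ η := by
    have : t ≤ η / L1 := by rw [htdef]; exact min_le_right _ _
    calc L1 * t ≤ L1 * (η / L1) := mul_le_mul_of_nonneg_left this (by linarith)
      _ = η := by field_simp
  obtain ⟨κ, hκdef⟩ : ∃ κ : ℝ, κ = t ^ (d - 1) / C0 := ⟨_, rfl⟩
  have hκ0 : 0 < κ := by rw [hκdef]; positivity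
  obtain ⟨r, hrdef⟩ : ∃ r : ℝ, r = min 1 (κ / (2 * L2)) := ⟨_, rfl⟩
  have hr0 : 0 < r := by rw [hrdef]; exact lt_min one_pos (by positivity)
  have hr1 : r ≤ 1 := by rw [hrdef]; exact min_le_left _ _
  have hrκ : L2 * r ≤ κ / 2 := by
    have : r ≤ κ / (2 * L2) := by rw [hrdef]; exact min_le_right _ _
    calc L2 * r ≤ L2 * (κ / (2 * L2)) := mul_le_mul_of_nonneg_left this (by linarith)
      _ = κ / 2 := by field_simp
  refine ⟨(r / 2) ^ d / C0, B, by positivity, hB1, ?_⟩
  intro G c hdeg hco hlead hc hcrit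
  obtain ⟨ρ, hρdef⟩ : ∃ ρ : ℝ, ρ = (r / 2) ^ d / C0 := ⟨_, rfl⟩
  rw [← hρdef]
  have hρ0 : 0 < ρ := by rw [hρdef]; positivity
  have hlc0 : 0 < ‖G.coeff d‖ := by
    by_contra h
    have : ‖G.coeff d‖ = 0 := le_antisymm (not_lt.1 h) (norm_nonneg _)
    rw [this] at hlead
    linarith
  have hlcC : 1 / C0 ≤ ‖G.coeff d‖ := by
    rw [div_le_iff₀ hC0]
    linarith
  -- roots of `G = c` are bounded
  have hroot : ∀ a, G.eval a = c → ‖a‖ ≤ B - 1 := by
    intro a ha
    by_contra hcon
    push Not at hcon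
    have hBm : B - 1 = (d + 1) * C0 ^ 2 := by rw [hBdef]; ring
    have ha1 : 1 ≤ ‖a‖ := by
      have : (1 : ℝ) ≤ B - 1 := by rw [hBm]; nlinarith [sq_nonneg (C0 - 1)]
      linarith
    obtain ⟨e, rfl⟩ : ∃ e, d = e + 1 := ⟨d - 1, by omega⟩
    rw [eval_eq_sum_range' (show G.natDegree < e + 1 + 1 by omega), Finset.sum_range_succ] at ha
    have h1 : G.coeff (e + 1) * a ^ (e + 1) =
        c - ∑ x ∈ Finset.range (e + 1), G.coeff x * a ^ x := by
      rw [← ha]; ring
    have h2 : ‖G.coeff (e + 1) * a ^ (e + 1)‖ ≤ C0 * ‖a‖ ^ e + (e + 1) * (C0 * ‖a‖ ^ e) := by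
      rw [h1]
      refine (norm_sub_le _ _).trans (add_le_add ?_ ?_)
      · calc ‖c‖ ≤ C0 * 1 := by linarith
          _ ≤ C0 * ‖a‖ ^ e := mul_le_mul_of_nonneg_left (one_le_pow₀ ha1) hC0.le
      · calc ‖∑ x ∈ Finset.range (e + 1), G.coeff x * a ^ x‖
            ≤ ∑ x ∈ Finset.range (e + 1), C0 * ‖a‖ ^ e := by
              refine norm_sum_le_of_le _ fun i hi => ?_
              rw [norm_mul, norm_pow]
              exact mul_le_mul (hco i) (pow_le_pow_right₀ ha1
                (Nat.lt_succ_iff.1 (Finset.mem_range.1 hi))) (by positivity) hC0.le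
          _ = (e + 1) * (C0 * ‖a‖ ^ e) := by
              simp only [Finset.sum_const, Finset.card_range, nsmul_eq_mul]
              push_cast
              ring
    rw [norm_mul, norm_pow, pow_succ] at h2
    have hpos : 0 < ‖a‖ ^ e := by positivity
    have h3 : ‖G.coeff (e + 1)‖ * ‖a‖ ≤ C0 + (e + 1) * C0 := by
      have : (‖G.coeff (e + 1)‖ * ‖a‖) * ‖a‖ ^ e ≤ (C0 + (e + 1) * C0) * ‖a‖ ^ e := by
        nlinarith
      exact le_of_mul_le_mul_right this hpos
    have h4 : ‖a‖ ≤ C0 * (‖G.coeff (e + 1)‖ * ‖a‖) := by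
      have : 1 * ‖a‖ ≤ (C0 * ‖G.coeff (e + 1)‖) * ‖a‖ :=
        mul_le_mul_of_nonneg_right hlead (norm_nonneg _)
      linarith
    have h5 : C0 * (‖G.coeff (e + 1)‖ * ‖a‖) ≤ C0 * (C0 + (e + 1) * C0) :=
      mul_le_mul_of_nonneg_left h3 hC0.le
    rw [hBm] at hcon
    push_cast at hcon
    nlinarith
  have hlcG : G.leadingCoeff = G.coeff d := by rw [leadingCoeff, hdeg]
  -- lower bound for the derivative
  have hder : ∀ a, G.eval a = c → κ ≤ ‖G.derivative.eval a‖ := by
    intro a ha
    by_contra hcon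
    push Not at hcon
    have hnd : G.derivative.natDegree = d - 1 := by
      rw [natDegree_derivative, hdeg]
    have hlc' : 1 / C0 ≤ ‖G.derivative.leadingCoeff‖ := by
      rw [leadingCoeff, hnd, coeff_derivative, norm_mul, Nat.sub_add_cancel hd]
      have h1 : (1 : ℝ) ≤ ‖(((d - 1 : ℕ) : ℂ) + 1)‖ := by
        have : (((d - 1 : ℕ) : ℂ) + 1) = ((d : ℕ) : ℂ) := by
          have h := Nat.sub_add_cancel hd
          exact_mod_cast congrArg (Nat.cast : ℕ → ℂ) h
        rw [this, Complex.norm_natCast]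
        exact hd'
      calc 1 / C0 ≤ ‖G.coeff d‖ * 1 := by linarith
        _ ≤ _ := mul_le_mul_of_nonneg_left h1 (norm_nonneg _)
    obtain ⟨z, hz, hza⟩ := exists_root_near G.derivative a t ht0.le (by
      rw [hnd]
      refine hcon.trans_le ?_
      rw [hκdef]
      calc t ^ (d - 1) / C0 = 1 / C0 * t ^ (d - 1) := by ring
        _ ≤ _ := mul_le_mul_of_nonneg_right hlc' (by positivity))
    have hab := hroot a ha
    have hzb : ‖z‖ ≤ B := by
      have : ‖z‖ ≤ ‖a‖ + ‖a - z‖ := by
        have h := norm_sub_le a (a - z)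
        simpa using h
      linarith
    have h1 := lip G d C0 B hdeg.le hco hB1 a z (by linarith) hzb
    rw [← hL1def] at h1
    have h2 := hcrit z hz
    rw [ha] at h1
    have h3 : ‖z - a‖ < t := by rwa [norm_sub_rev]
    have h4 : L1 * ‖z - a‖ < L1 * t := mul_lt_mul_of_pos_left h3 (by linarith)
    linarith
  -- injectivity on balls of radius `r`
  have hinj : ∀ a, G.eval a = c → ∀ x y, ‖a - x‖ < r → ‖a - y‖ < r →
      κ / 2 * ‖y - x‖ ≤ ‖G.eval y - G.eval x‖ := by
    intro a ha x y hx hy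
    have hab := hroot a ha
    have hda := hder a ha
    have key : ‖(G.eval y - G.derivative.eval a * y) - (G.eval x - G.derivative.eval a * x)‖ ≤
        κ / 2 * ‖y - x‖ := by
      refine Convex.norm_image_sub_le_of_norm_deriv_le (𝕜 := ℂ)
        (f := fun z => G.eval z - G.derivative.eval a * z)
        (s := Metric.ball a r) (fun z _ => ?_) (fun z hz => ?_)
        (convex_ball _ _) (by rwa [Metric.mem_ball, dist_comm, dist_eq_norm])
        (by rwa [Metric.mem_ball, dist_comm, dist_eq_norm])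
      · exact G.differentiableAt.sub ((differentiableAt_id).const_mul _)
      · have h1 : deriv (fun z => G.eval z - G.derivative.eval a * z) z =
            G.derivative.eval z - G.derivative.eval a := by
          have h := (G.hasDerivAt z).fun_sub ((hasDerivAt_id z).const_mul (G.derivative.eval a))
          simpa using h.deriv
        rw [h1]
        rw [Metric.mem_ball, dist_eq_norm] at hz
        have hzb : ‖z‖ ≤ B := by
          have : ‖z‖ ≤ ‖z - a‖ + ‖a‖ := by
            have h := norm_add_le (z - a) a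
            simpa using h
          linarith
        have h2 := lip G.derivative d (d * C0) B
          ((natDegree_derivative_le G).trans (by omega)) (deriv_coeff G d C0 hdeg.le hco) hB1 a z
          (by linarith) hzb
        rw [← hL2def] at h2
        calc _ ≤ L2 * ‖z - a‖ := h2
          _ ≤ L2 * r := mul_le_mul_of_nonneg_left hz.le (by linarith)
          _ ≤ κ / 2 := hrκ
    have h1 : G.derivative.eval a * (y - x) = (G.eval y - G.eval x) -
        ((G.eval y - G.derivative.eval a * y) - (G.eval x - G.derivative.eval a * x)) := by ring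
    have h2 : κ * ‖y - x‖ ≤ ‖G.derivative.eval a * (y - x)‖ := by
      rw [norm_mul]
      exact mul_le_mul_of_nonneg_right hda (norm_nonneg _)
    rw [h1] at h2
    have h3 := norm_sub_le (G.eval y - G.eval x)
      ((G.eval y - G.derivative.eval a * y) - (G.eval x - G.derivative.eval a * x))
    linarith
  have hderb : ∀ a, G.eval a = c → ∀ x, ‖a - x‖ < r → G.derivative.eval x ≠ 0 := by
    intro a ha x hx h0
    have hab := hroot a ha
    have hda := hder a ha
    have hxb : ‖x‖ ≤ B := by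
      have : ‖x‖ ≤ ‖a‖ + ‖a - x‖ := by
        have h := norm_sub_le a (a - x)
        simpa using h
      linarith
    have h2 := lip G.derivative d (d * C0) B
      ((natDegree_derivative_le G).trans (by omega)) (deriv_coeff G d C0 hdeg.le hco) hB1 x a
      hxb (by linarith)
    rw [← hL2def, h0, sub_zero] at h2
    have h3 : L2 * ‖a - x‖ ≤ L2 * r := mul_le_mul_of_nonneg_left hx.le (by linarith)
    linarith
  -- the roots of `G = c`
  have hGc0 : G - C c ≠ 0 := by
    intro h
    have : (G - C c).natDegree = d := by rw [natDegree_sub_C, hdeg]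
    rw [h, natDegree_zero] at this
    omega
  have hev : ∀ v a, (G - C v).eval a = 0 ↔ G.eval a = v := by
    intro v a
    rw [eval_sub, eval_C, sub_eq_zero]
  have hnodup : (G - C c).roots.Nodup := by
    rw [Multiset.nodup_iff_count_le_one]
    intro a
    rw [count_roots]
    by_contra hcon
    push Not at hcon
    rw [one_lt_rootMultiplicity_iff_isRoot hGc0] at hcon
    obtain ⟨h1, h2⟩ := hcon
    have h3 : G.eval a = c := (hev c a).1 h1
    have h4 : G.derivative.eval a = 0 := by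
      have : (derivative (G - C c)).eval a = 0 := h2
      simpa using this
    have := hder a h3
    rw [h4, norm_zero] at this
    linarith
  have hcard : (G - C c).roots.toFinset.card = d := by
    rw [Multiset.toFinset_card_of_nodup hnodup,
      splits_iff_card_roots.1 (IsAlgClosed.splits (G - C c)), natDegree_sub_C, hdeg]
  let e := Finset.equivFinOfCardEq hcard
  let a : Fin d → ℂ := fun i => ((e.symm i : (G - C c).roots.toFinset) : ℂ)
  have haG : ∀ i, G.eval (a i) = c := by
    intro i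
    have h := (e.symm i).2
    rw [Multiset.mem_toFinset, mem_roots hGc0] at h
    exact (hev c _).1 h
  have hainj : Function.Injective a := fun i j h => e.symm.injective (Subtype.ext h)
  -- existence of the branches
  have hex : ∀ i, ∀ v ∈ Metric.ball c ρ, ∃ y, G.eval y = v ∧ ‖a i - y‖ < r / 2 := by
    intro i v hv
    obtain ⟨y, hy1, hy2⟩ := exists_root_near (G - C v) (a i) (r / 2) (by positivity) (by
      rw [eval_sub, eval_C, haG i, natDegree_sub_C, hdeg]
      have hlcv : (G - C v).leadingCoeff = G.coeff d := by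
        rw [leadingCoeff, natDegree_sub_C, hdeg, coeff_sub, coeff_C_of_ne_zero (by omega), sub_zero]
      rw [hlcv]
      rw [Metric.mem_ball, dist_comm, dist_eq_norm] at hv
      refine hv.trans_le ?_
      rw [hρdef]
      calc (r / 2) ^ d / C0 = 1 / C0 * (r / 2) ^ d := by ring
        _ ≤ _ := mul_le_mul_of_nonneg_right hlcC (by positivity))
    exact ⟨y, (hev v y).1 hy1, hy2⟩
  classical
  let y : Fin d → ℂ → ℂ := fun i v =>
    if h : ∃ y, G.eval y = v ∧ ‖a i - y‖ < r / 2 then h.choose else 0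
  have hy : ∀ i, ∀ v ∈ Metric.ball c ρ, G.eval (y i v) = v ∧ ‖a i - y i v‖ < r / 2 := by
    intro i v hv
    have h := hex i v hv
    have : y i v = h.choose := by
      simp only [y]
      rw [dif_pos h]
    rw [this]
    exact h.choose_spec
  have hr2 : r / 2 < r := by linarith
  have hlipy : ∀ i, ∀ v ∈ Metric.ball c ρ, ∀ v' ∈ Metric.ball c ρ,
      ‖y i v' - y i v‖ ≤ 2 / κ * ‖v' - v‖ := by
    intro i v hv v' hv'
    have h := hinj (a i) (haG i) (y i v) (y i v') ((hy i v hv).2.trans hr2)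
      ((hy i v' hv').2.trans hr2)
    rw [(hy i v hv).1, (hy i v' hv').1] at h
    rw [div_mul_eq_mul_div, le_div_iff₀ hκ0]
    linarith
  have hcont : ∀ i, ContinuousOn (y i) (Metric.ball c ρ) := by
    intro i
    have : LipschitzOnWith (Real.toNNReal (2 / κ)) (y i) (Metric.ball c ρ) := by
      refine LipschitzOnWith.of_dist_le_mul fun v hv v' hv' => ?_
      rw [dist_eq_norm, dist_eq_norm, Real.coe_toNNReal _ (by positivity)]
      exact hlipy i v' hv' v hv
    exact this.continuousOn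
  refine ⟨y, ?_, ?_, fun i v hv => (hy i v hv).1, ?_⟩
  · intro i v hv
    have hnb : Metric.ball c ρ ∈ 𝓝 v := Metric.isOpen_ball.mem_nhds hv
    have h := HasDerivAt.of_local_left_inverse (f := fun z => G.eval z) (g := y i)
      ((hcont i).continuousAt hnb) (G.hasDerivAt (y i v))
      (hderb (a i) (haG i) (y i v) ((hy i v hv).2.trans hr2))
      (Filter.eventually_of_mem hnb fun v' hv' => (hy i v' hv').1)
    exact h.differentiableAt.differentiableWithinAt
  · intro i v hv
    have h1 := hroot (a i) (haG i)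
    have h2 : ‖y i v‖ ≤ ‖a i‖ + ‖a i - y i v‖ := by
      have h := norm_sub_le (a i) (a i - y i v)
      simpa using h
    have h3 := (hy i v hv).2
    linarith
  · intro v hv i j hij
    have hij' : y i v = y j v := hij
    have h1 : ‖a i - a j‖ < r := by
      have h2 := (hy i v hv).2
      have h3 := (hy j v hv).2
      have h4 : a i - a j = (a i - y i v) - (a j - y j v) := by rw [hij']; ring
      rw [h4]
      refine (norm_sub_le _ _).trans_lt ?_
      linarith
    have h5 := hinj (a i) (haG i) (a i) (a j) (by simpa using hr0) h1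
    rw [haG i, haG j, sub_self, norm_zero] at h5
    have h6 : ‖a j - a i‖ = 0 := by
      have : 0 ≤ ‖a j - a i‖ := norm_nonneg _
      nlinarith
    exact hainj (sub_eq_zero.1 (norm_eq_zero.1 h6)).symm

theorem roots : S_ROOTS := by
  intro d C0 η hd hC hη
  obtain ⟨ρ, B, hρ, hB, hcore⟩ := core d C0 η hd hC hη
  have hC0 : 0 < C0 := by linarith
  have hCB : 1 ≤ C0 * B := by nlinarith
  refine ⟨ρ, C0 * B, hρ, hCB, ?_⟩
  intro F M R c₀ hS hM hc hcrit
  have hM1 : 1 ≤ M := hCB.trans hM
  have hM0 : 0 < M := by linarith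
  have hR0 : 0 < R := by linarith [hS.hR]
  have hMc : (M : ℂ) ≠ 0 := by exact_mod_cast hM0.ne'
  have hRc : (R : ℂ) ≠ 0 := by exact_mod_cast hR0.ne'
  obtain ⟨f, hf⟩ : ∃ f : ℂ[X], f = F.map (Int.castRingHom ℂ) := ⟨_, rfl⟩
  obtain ⟨G, hG⟩ : ∃ G : ℂ[X], G = C ((M : ℂ)⁻¹) * f.comp (C (R : ℂ) * X) := ⟨_, rfl⟩
  have hfco : ∀ j, f.coeff j = (F.coeff j : ℂ) := by
    intro j
    rw [hf, coeff_map]
    simp
  have hfdeg : f.natDegree = d := by
    rw [hf, natDegree_map_eq_of_injective (Int.cast_injective (α := ℂ)), hS.deg]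
  have hGco : ∀ j, G.coeff j = (M : ℂ)⁻¹ * ((F.coeff j : ℂ) * (R : ℂ) ^ j) := by
    intro j
    rw [hG, coeff_C_mul, comp_C_mul_X_coeff, hfco]
  have hGn : ∀ j, ‖G.coeff j‖ = |(F.coeff j : ℝ)| * R ^ j / M := by
    intro j
    rw [hGco, norm_mul, norm_inv, norm_mul, norm_pow, Complex.norm_real, Complex.norm_real,
      Complex.norm_intCast, Real.norm_of_nonneg hM0.le, Real.norm_of_nonneg hR0.le]
    field_simp
  have hFd : F.coeff d ≠ 0 := by
    rw [← hS.deg, coeff_natDegree, leadingCoeff_ne_zero]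
    rintro rfl
    have := hS.deg
    simp at this
    omega
  have hGdeg : G.natDegree = d := by
    refine le_antisymm ?_ ?_
    · rw [natDegree_le_iff_coeff_eq_zero]
      intro N hN
      rw [hGco, coeff_eq_zero_of_natDegree_lt (by rw [hS.deg]; exact hN)]
      simp
    · refine le_natDegree_of_ne_zero ?_
      rw [hGco]
      refine mul_ne_zero (inv_ne_zero hMc) (mul_ne_zero ?_ (pow_ne_zero _ hRc))
      exact_mod_cast hFd
  have hGeval : ∀ z, G.eval z = (M : ℂ)⁻¹ * f.eval ((R : ℂ) * z) := by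
    intro z
    rw [hG, eval_mul, eval_C, eval_comp, eval_mul, eval_C, eval_X]
  have hfa : ∀ z, f.eval z = aeval z F := by
    intro z
    rw [hf, eval_map, aeval_def]
    rfl
  have hGder : ∀ z, G.derivative.eval z = (M : ℂ)⁻¹ * (R * f.derivative.eval ((R : ℂ) * z)) := by
    intro z
    rw [hG, derivative_C_mul, eval_mul, eval_C, derivative_comp, eval_mul, eval_comp]
    simp
  have hfd : ∀ z, f.derivative.eval z = aeval z (derivative F) := by
    intro z
    rw [hf, derivative_map, eval_map, aeval_def]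
    rfl
  have hb1 : |(F.coeff d : ℝ)| * R ^ d ≤ C0 * M := hS.up d
  obtain ⟨y, hy1, hy2, hy3, hy4⟩ := hcore G ((c₀ : ℂ) / M) hGdeg
    (by
      intro j
      rw [hGn, div_le_iff₀ hM0]
      exact hS.up j)
    (by
      rw [hGn, ← mul_div_assoc, le_div_iff₀ hM0]
      have := hS.low
      linarith)
    (by
      rw [norm_div, Complex.norm_real, Complex.norm_real, Real.norm_eq_abs,
        Real.norm_of_nonneg hM0.le, div_le_iff₀ hM0]
      exact hc)
    (by
      intro z hz
      rw [hGder, hfd] at hz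
      have h1 : aeval ((R : ℂ) * z) (derivative F) = 0 := by
        rcases mul_eq_zero.1 hz with h | h
        · exact absurd h (inv_ne_zero hMc)
        · rcases mul_eq_zero.1 h with h | h
          · exact absurd h hRc
          · exact h
      have h2 := hcrit _ h1
      have h3 : G.eval z - (c₀ : ℂ) / M = (aeval ((R : ℂ) * z) F - (c₀ : ℂ)) / M := by
        rw [hGeval, hfa]
        field_simp
      rw [h3, norm_div, Complex.norm_real, Real.norm_of_nonneg hM0.le, le_div_iff₀ hM0]
      exact h2)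
  have hmem : ∀ w ∈ Metric.ball (c₀ : ℂ) (ρ * M), w / M ∈ Metric.ball ((c₀ : ℂ) / M) ρ := by
    intro w hw
    rw [Metric.mem_ball, dist_eq_norm] at hw ⊢
    rw [← sub_div, norm_div, Complex.norm_real, Real.norm_of_nonneg hM0.le, div_lt_iff₀ hM0]
    exact hw
  have hlead : (F.leadingCoeff : ℝ) = (F.coeff d : ℝ) := by rw [leadingCoeff, hS.deg]
  have hRd : R ≤ R ^ d := by
    calc R = R ^ 1 := (pow_one R).symm
      _ ≤ R ^ d := pow_le_pow_right₀ hS.hR hd
  have hbR : |(F.leadingCoeff : ℝ)| * R ≤ C0 * M := by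
    rw [hlead]
    exact (mul_le_mul_of_nonneg_left hRd (abs_nonneg _)).trans hb1
  have hCM : C0 ≤ M := by nlinarith
  have hbc : (F.leadingCoeff : ℂ) ≠ 0 := by
    rw [leadingCoeff, hS.deg]
    exact_mod_cast hFd
  have hinjy : ∀ w ∈ Metric.ball (c₀ : ℂ) (ρ * M), Function.Injective
      fun i => (F.leadingCoeff : ℂ) * R * y i (w / M) := by
    intro w hw i j hij
    have hij' : (F.leadingCoeff : ℂ) * R * y i (w / M) = (F.leadingCoeff : ℂ) * R * y j (w / M) :=
      hij
    exact hy4 _ (hmem w hw) (mul_left_cancel₀ (mul_ne_zero hbc hRc) hij')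
  refine ⟨fun i w => (F.leadingCoeff : ℂ) * R * y i (w / M), hS.deg, ?_, ?_, ?_, hinjy, ?_⟩
  · intro i
    refine DifferentiableOn.const_mul ?_ _
    exact (hy1 i).comp ((differentiable_id.div_const _).differentiableOn) hmem
  · intro i w hw
    have h1 := hy2 i _ (hmem w hw)
    rw [norm_mul, norm_mul, Complex.norm_intCast, Complex.norm_real, Real.norm_of_nonneg hR0.le]
    calc |(F.leadingCoeff : ℝ)| * R * ‖y i (w / M)‖ ≤ C0 * M * B :=
          mul_le_mul hbR h1 (norm_nonneg _) (by positivity)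
      _ = (C0 * B) * M := by ring
      _ ≤ M * M := mul_le_mul_of_nonneg_right hM hM0.le
      _ ≤ M ^ 3 := by nlinarith [mul_pos hM0 hM0]
  · intro w hw
    -- the product formula
    have hpdeg : (f - C w).natDegree = d := by rw [natDegree_sub_C, hfdeg]
    have hp0 : f - C w ≠ 0 := by
      intro h
      rw [h, natDegree_zero] at hpdeg
      omega
    have hplc : (f - C w).leadingCoeff = (F.leadingCoeff : ℂ) := by
      rw [leadingCoeff, hpdeg, coeff_sub, coeff_C_of_ne_zero (by omega), sub_zero, hfco, leadingCoeff,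
        hS.deg]
    have hmon : (monC F w).Monic := by
      rw [monC, ← hf]
      exact monic_integralNormalization hp0
    have hmdeg : (monC F w).natDegree = d := by
      rw [monC, ← hf, natDegree_integralNormalization, hpdeg]
    have hroots : ∀ i, (monC F w).eval ((F.leadingCoeff : ℂ) * R * y i (w / M)) = 0 := by
      intro i
      have h1 := integralNormalization_eval₂_leadingCoeff_mul (p := f - C w)
        (by rw [hpdeg]; exact hd) (RingHom.id ℂ) ((R : ℂ) * y i (w / M))
      have h2 : (f - C w).eval ((R : ℂ) * y i (w / M)) = 0 := by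
        have h3 := hy3 i _ (hmem w hw)
        rw [hGeval] at h3
        rw [eval_sub, eval_C]
        have h4 : f.eval ((R : ℂ) * y i (w / M)) = w := by
          field_simp at h3
          exact h3
        rw [h4, sub_self]
      rw [RingHom.id_apply, hplc, ← mul_assoc] at h1
      rw [monC, ← hf, eval, h1]
      rw [eval] at h2
      rw [h2, mul_zero]
    have hdvd : (∏ i, (X - C ((F.leadingCoeff : ℂ) * R * y i (w / M)))) ∣ monC F w := by
      refine Finset.prod_dvd_of_coprime ?_ ?_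
      · intro i _ j _ hij
        exact isCoprime_X_sub_C_of_isUnit_sub
          (sub_ne_zero.2 fun h => hij (hinjy w hw h)).isUnit
      · intro i _
        exact dvd_iff_isRoot.2 (hroots i)
    refine (eq_of_monic_of_dvd_of_natDegree_le (monic_prod_of_monic _ _ fun i _ => monic_X_sub_C _)
      hmon hdvd ?_)
    rw [hmdeg, natDegree_prod_of_monic _ _ fun i _ => monic_X_sub_C _]
    simp only [natDegree_X_sub_C, Finset.sum_const, Finset.card_univ, Fintype.card_fin,
      smul_eq_mul, mul_one, le_refl]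
  · calc |(F.leadingCoeff : ℝ)| = |(F.leadingCoeff : ℝ)| * 1 := by ring
      _ ≤ |(F.leadingCoeff : ℝ)| * R := mul_le_mul_of_nonneg_left hS.hR (abs_nonneg _)
      _ ≤ C0 * M := hbR
      _ ≤ M * M := mul_le_mul_of_nonneg_right hCM hM0.le
      _ = M ^ 2 := by ring

end Pool.Agent.Helper89.EP
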